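import Pool.Agent.Lib.MP_497a12_mp.Defs
import Pool.Agent.Lib.MP_497a12_mp.Final3

set_option autoImplicit false

namespace Pool.Agent.Results.MP_497a12_mp.Classification

open MP497a12

/-- In each of the cases (a)-(f), for all `d` and all parameters in the range of the case, the bound
(*) with the truncation of the case is sharp up to `hb ^ eps` if and only if `γ > 1/2` in the case
(f). So it is sharp in all cases (a)-(e), and in the case (f) exactly if `γ > 1/2`. -/
theorem result (k : Case) (d : ℕ) (α β γ : ℝ) (h : k.Range d α β γ) :
    Sharp d α β γ k.trunc ↔ (k = Case.f → 1 / 2 < γ) :=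
  classification k d α β γ h

end Pool.Agent.Results.MP_497a12_mp.Classification
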